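import Pool.Agent.helper7.TW.AllB

/-!
# MP_93f80a_lc: `C h² r (1 + log k)⁵ ≤ k` suffices for all graphs
-/

set_option autoImplicit false

namespace Pool.Agent.Results.MP_93f80a_lc.AllGraphs

open Pool.Agent.TW in
/-- There is an absolute constant `C` such that every finite graph of treewidth at least `k`, where
`C * h ^ 2 * r * (1 + log k) ^ 5 ≤ k`, has `h` pairwise vertex-disjoint induced subgraphs of
treewidth at least `r`. -/
theorem result : ∃ C : ℝ, 0 < C ∧ ∀ (h r k : ℕ), 1 ≤ h → 1 ≤ r →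
    C * (h : ℝ) ^ 2 * r * (1 + Real.log k) ^ 5 ≤ k →
    ∀ (V : Type) [Fintype V] (G : SimpleGraph V), k ≤ treewidth G →
      ∃ W : Fin h → Finset V, (∀ i j, i ≠ j → Disjoint (W i) (W j)) ∧
        ∀ i, r ≤ treewidth (G.induce (W i : Set V)) :=
  all_B

end Pool.Agent.Results.MP_93f80a_lc.AllGraphs
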