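import Pool.Agent.helper7.TW.AllA

/-!
# MP_93f80a_lc: graphs of bounded degree, `k ≥ C D h² r (1 + log h)` suffices (no power of `log k`)
-/

set_option autoImplicit false

namespace Pool.Agent.Results.MP_93f80a_lc.BoundedDegree

open Pool.Agent.TW in
/-- Let `G` be a finite graph of maximum degree at most `D` with treewidth at least `k`, where
`2 ^ 17 * D * h ^ 2 * r * (1 + log h) ≤ k`.  Then `G` has `h` pairwise vertex-disjoint induced
subgraphs of treewidth at least `r`. -/
theorem result : ∀ (D h r k : ℕ), 1 ≤ D → 1 ≤ h → 1 ≤ r →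
    (2 ^ 17 * D * h ^ 2 * r * (1 + Real.log h) : ℝ) ≤ k →
    ∀ (V : Type) [Fintype V] (G : SimpleGraph V), (∀ v, (G.neighborSet v).ncard ≤ D) →
      k ≤ treewidth G →
      ∃ W : Fin h → Finset V, (∀ i j, i ≠ j → Disjoint (W i) (W j)) ∧
        ∀ i, r ≤ treewidth (G.induce (W i : Set V)) :=
  all_A

end Pool.Agent.Results.MP_93f80a_lc.BoundedDegree
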