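import Pool.Agent.helper7.XT.Mod

/-!
# MP_93f80a_lc: the bound `h r ≤ k / polylog` for graphs with a minor of treewidth `k` that has few
vertices, or few vertices up to a part of small treewidth
-/

set_option autoImplicit false

namespace Pool.Agent.Results.MP_93f80a_lc.SmallModulator

open Pool.Agent.TW in
/-- Let `H` be a minor of the finite graph `G` (branch sets `β x`), of treewidth at least `k`, and let
`X` be a set of vertices of `H` such that `H[X]` has treewidth less than `t` and at most `N` vertices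
of `H` are outside `X`.  If `2 ^ 170 * h * r * t ^ 4 * N ^ 3 * (1 + log N) ^ 29 ≤ k ^ 4`, then `G` has `h`
pairwise disjoint vertex sets which induce subgraphs of treewidth at least `r`. -/
theorem result : ∀ h r k t N : ℕ, 1 ≤ h → 1 ≤ r → 1 ≤ t → 1 ≤ N →
    (2 : ℝ) ^ 170 * h * r * (t : ℝ) ^ 4 * (N : ℝ) ^ 3 * (1 + Real.log N) ^ 29 ≤ (k : ℝ) ^ 4 →
    ∀ (V V' : Type) [Fintype V] [Fintype V'] (G : SimpleGraph V) (H : SimpleGraph V')
      (β : V' → Finset V),
      (∀ x y, x ≠ y → Disjoint (β x) (β y)) →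
      (∀ x, (G.induce (β x : Set V)).Connected) →
      (∀ x y, H.Adj x y → ∃ u ∈ β x, ∃ v ∈ β y, G.Adj u v) →
      ∀ X : Finset V', treewidth (H.induce (X : Set V')) < t → ((X : Set V')ᶜ).ncard ≤ N →
        k ≤ treewidth H →
        ∃ W : Fin h → Finset V, (∀ i j, i ≠ j → Disjoint (W i) (W j)) ∧
          ∀ i, r ≤ treewidth (G.induce (W i : Set V)) :=
  fun h r k t N hh hr ht hN hnum V V' _ _ G H β hdis hconn hadj X hX hZ htw =>
    Pool.Agent.XT.modT h r k t N hh hr ht hN hnum V V' G H β hdis hconn hadj X hX hZ htw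

end Pool.Agent.Results.MP_93f80a_lc.SmallModulator
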